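import Pool.Agent.X182.Fre.NoInj

/-!
# Fréchet modules without injective coresolutions

Over the commutative Fréchet algebra `z ℂ[[z]]` a Fréchet module has an injective coresolution
only if it is zero.
-/

set_option autoImplicit false

open Pool.Agent.X182.Fre
open scoped PowerSeries.WithPiTopology

namespace Pool.Agent.Results.MP_8296bc_an.NoInjectiveCoresolution

universe u v

/-- A coresolution `0 → X → J 0 → J 1 → J 2 → ⋯` of the Fréchet `A`-module `M` (on the space `X`)
by Fréchet `A`-modules: a complex of Fréchet `A`-modules and continuous `A`-linear maps that has a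
contracting homotopy made of continuous linear maps (it is admissible). -/
structure Coresolution {A : Type v} [NonUnitalRing A] [Module ℂ A] [UniformSpace A]
    {X : Type u} [AddCommGroup X] [Module ℂ X] [UniformSpace X] (M : FrechetModule A X)
    (J : ℕ → Type u) [∀ k, AddCommGroup (J k)] [∀ k, Module ℂ (J k)] [∀ k, UniformSpace (J k)]
    (N : ∀ k, FrechetModule A (J k)) where
  /-- the augmentation `X → J 0` -/
  ε : X →L[ℂ] J 0
  /-- the differentials -/
  d : ∀ k, J k →L[ℂ] J (k + 1)
  ε_mor : IsMorphism M (N 0) ε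
  d_mor : ∀ k, IsMorphism (N k) (N (k + 1)) (d k)
  d_ε : ∀ x, d 0 (ε x) = 0
  d_d : ∀ k x, d (k + 1) (d k x) = 0
  /-- the contracting homotopy in degree `0` -/
  s₀ : J 0 →L[ℂ] X
  /-- the contracting homotopy in positive degrees -/
  s : ∀ k, J (k + 1) →L[ℂ] J k
  s₀_ε : ∀ x, s₀ (ε x) = x
  ε_s₀ : ∀ x, ε (s₀ x) + s 0 (d 0 x) = x
  d_s : ∀ k x, d k (s k x) + s (k + 1) (d (k + 1) x) = x

/-- The Fréchet `A`-module `M` has an injective coresolution. -/
def HasInjectiveCoresolution {A : Type v} [NonUnitalRing A] [Module ℂ A] [UniformSpace A]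
    {X : Type u} [AddCommGroup X] [Module ℂ X] [UniformSpace X] (M : FrechetModule A X) : Prop :=
  ∃ (J : ℕ → Type u) (_ : ∀ k, AddCommGroup (J k)) (_ : ∀ k, Module ℂ (J k))
    (_ : ∀ k, UniformSpace (J k)) (N : ∀ k, FrechetModule A (J k)),
    (∀ k, IsInjective (N k)) ∧ Nonempty (Coresolution M J N)

/-- The unital Fréchet module `M` over the unital algebra `A` has a coresolution by unital Fréchet
modules that are injective in the category of unital Fréchet modules. -/
def HasInjectiveCoresolutionUnital {A : Type v} [Ring A] [Module ℂ A] [UniformSpace A]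
    {X : Type u} [AddCommGroup X] [Module ℂ X] [UniformSpace X] (M : FrechetModule A X) : Prop :=
  ∃ (J : ℕ → Type u) (_ : ∀ k, AddCommGroup (J k)) (_ : ∀ k, Module ℂ (J k))
    (_ : ∀ k, UniformSpace (J k)) (N : ∀ k, FrechetModule A (J k)),
    (∀ k, IsUnital (N k) ∧ IsInjectiveUnital (N k)) ∧ Nonempty (Coresolution M J N)

/-- The trivial coresolution of a zero module. -/
def trivialCoresolution {A : Type v} [NonUnitalRing A] [Module ℂ A] [UniformSpace A]
    {X : Type u} [AddCommGroup X] [Module ℂ X] [UniformSpace X] [Subsingleton X]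
    (M : FrechetModule A X) : Coresolution M (fun _ => X) (fun _ => M) where
  ε := 0
  d := fun _ => 0
  ε_mor := fun _ _ => Subsingleton.elim _ _
  d_mor := fun _ _ _ => Subsingleton.elim _ _
  d_ε := fun _ => Subsingleton.elim _ _
  d_d := fun _ _ => Subsingleton.elim _ _
  s₀ := 0
  s := fun _ => 0
  s₀_ε := fun _ => Subsingleton.elim _ _
  ε_s₀ := fun _ => Subsingleton.elim _ _
  d_s := fun _ _ => Subsingleton.elim _ _

/-- The module with zero action on `ℂ`. -/
noncomputable def zeroAct (A : Type v) [NonUnitalRing A] [Module ℂ A] [UniformSpace A]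
    (X : Type u) [AddCommGroup X] [Module ℂ X] [UniformSpace X] (hX : FrechetSpace X) :
    FrechetModule A X where
  frechet := hX
  act := 0
  act_mul := by intro a b x; simp
  continuous_act := by simpa using continuous_const

theorem frechetSpace_complex : FrechetSpace ℂ where
  isUniformAddGroup := inferInstance
  continuousSMul := inferInstance
  locallyConvexSpace := inferInstance
  t2Space := inferInstance
  isCountablyGenerated := inferInstance
  completeSpace := inferInstance

theorem result :
    (∃ (A : Type) (_ : NonUnitalCommRing A) (_ : Module ℂ A) (_ : UniformSpace A),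
      FrechetAlgebra A ∧
      (∃ M : FrechetModule A ℂ, ¬ HasInjectiveCoresolution M) ∧
      (∀ (X : Type u) [AddCommGroup X] [Module ℂ X] [UniformSpace X] (M : FrechetModule A X),
        HasInjectiveCoresolution M ↔ Subsingleton X) ∧
      (∀ (X J : Type u) [AddCommGroup X] [Module ℂ X] [UniformSpace X]
        [AddCommGroup J] [Module ℂ J] [UniformSpace J]
        (M : FrechetModule A X) (N : FrechetModule A J) (φ : X →L[ℂ] J),
        IsMorphism M N φ → (∃ r : J →L[ℂ] X, ∀ x, r (φ x) = x) → IsInjective N →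
          Subsingleton X)) ∧
    (FrechetAlgebra (PowerSeries ℂ) ∧
      ∀ (X : Type u) [AddCommGroup X] [Module ℂ X] [UniformSpace X]
        (M : FrechetModule (PowerSeries ℂ) X),
        IsUnital M → (HasInjectiveCoresolutionUnital M ↔ Subsingleton X)) := by
  have key : ∀ (X : Type u) [AddCommGroup X] [Module ℂ X] [UniformSpace X]
      (M : FrechetModule augIdeal X), HasInjectiveCoresolution M ↔ Subsingleton X := by
    intro X _ _ _ M
    constructor
    · rintro ⟨J, _, _, _, N, hN, ⟨C⟩⟩
      have h0 : Subsingleton (J 0) := subsingleton_of_injective (N 0) (hN 0)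
      refine ⟨fun x y => ?_⟩
      rw [← C.s₀_ε x, ← C.s₀_ε y, Subsingleton.elim (C.ε x) (C.ε y)]
    · intro h
      refine ⟨fun _ => X, inferInstance, inferInstance, inferInstance, fun _ => M, ?_,
        ⟨trivialCoresolution M⟩⟩
      intro k Y _ _ _ N φ _ _
      exact ⟨0, fun _ _ => Subsingleton.elim _ _, fun _ => Subsingleton.elim _ _⟩
  have key0 : ∀ (M : FrechetModule augIdeal ℂ), HasInjectiveCoresolution M → False := by
    rintro M ⟨J, _, _, _, N, hN, ⟨C⟩⟩
    have h0 : Subsingleton (J 0) := subsingleton_of_injective (N 0) (hN 0)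
    have : (0 : ℂ) = 1 := by
      rw [← C.s₀_ε 0, ← C.s₀_ε 1, Subsingleton.elim (C.ε 0) (C.ε 1)]
    exact zero_ne_one this
  refine ⟨⟨augIdeal, inferInstance, inferInstance, inferInstance, frechetAlgebra_augIdeal,
    ⟨zeroAct augIdeal ℂ frechetSpace_complex, fun h => key0 _ h⟩, ?_, ?_⟩,
    ⟨frechetAlgebra_powerSeries, ?_⟩⟩
  · intro X _ _ _ M
    exact key X M
  · rintro X J _ _ _ _ _ _ M N φ _ ⟨r, hr⟩ hN
    have h0 : Subsingleton J := subsingleton_of_injective N hN
    refine ⟨fun x y => ?_⟩
    rw [← hr x, ← hr y, Subsingleton.elim (φ x) (φ y)]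
  · intro X _ _ _ M hM
    constructor
    · rintro ⟨J, _, _, _, N, hN, ⟨C⟩⟩
      have h0 : Subsingleton (J 0) :=
        subsingleton_of_injectiveUnital (N 0) (hN 0).1 (hN 0).2
      refine ⟨fun x y => ?_⟩
      rw [← C.s₀_ε x, ← C.s₀_ε y, Subsingleton.elim (C.ε x) (C.ε y)]
    · intro h
      refine ⟨fun _ => X, inferInstance, inferInstance, inferInstance, fun _ => M, ?_,
        ⟨trivialCoresolution M⟩⟩
      intro k
      refine ⟨hM, ?_⟩
      intro Y _ _ _ N _ φ _ _
      exact ⟨0, fun _ _ => Subsingleton.elim _ _, fun _ => Subsingleton.elim _ _⟩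

end Pool.Agent.Results.MP_8296bc_an.NoInjectiveCoresolution
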